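import Mathlib
import Pool.Agent.X85.UR

/-!
# An under-recurrent function with values in `[0, 1]`, but no under-recurrent set

The system is an aperiodic invertible transformation of a non-atomic standard probability space: an
irrational rotation on one half of the space and a Bernoulli shift on the other half.
-/

set_option autoImplicit false
open MeasureTheory

namespace Pool.Agent.Results.MP_73c876_an.FunctionWithoutSet

/-- `A` is an under-recurrent set of the system `(X, μ, T)`. -/
def UnderRecurrentSet {X : Type} [MeasurableSpace X] (μ : Measure X) (T : X → X) (A : Set X) : Prop :=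
  MeasurableSet A ∧ 0 < μ.real A ∧ μ.real A < 1 ∧
    ∀ n : ℕ, 1 ≤ n → μ.real (A ∩ T^[n] ⁻¹' A) ≤ μ.real A ^ 2

/-- `f` is an under-recurrent function of the system `(X, μ, T)`. -/
def UnderRecurrentFun {X : Type} [MeasurableSpace X] (μ : Measure X) (T : X → X) (f : X → ℝ) : Prop :=
  MemLp f 2 μ ∧ (∀ c : ℝ, ¬ f =ᵐ[μ] fun _ => c) ∧
    ∀ n : ℕ, 1 ≤ n → ∫ x, f x * f (T^[n] x) ∂μ ≤ (∫ x, f x ∂μ) ^ 2

/-- There are a non-atomic standard probability space and an aperiodic invertible measure preserving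
transformation `T` of it which has an under-recurrent function with values in `[0, 1]`, and no
under-recurrent set. -/
theorem result :
    ∃ (X : Type) (_ : MeasurableSpace X) (_ : StandardBorelSpace X) (μ : Measure X)
      (_ : IsProbabilityMeasure μ) (T : X ≃ᵐ X),
      MeasurePreserving T μ μ ∧ (∀ x, μ {x} = 0) ∧ (∀ n : ℕ, 1 ≤ n → μ {x | T^[n] x = x} = 0) ∧
      (∃ f : X → ℝ, Measurable f ∧ (∀ x, 0 ≤ f x ∧ f x ≤ 1) ∧ UnderRecurrentFun μ T f) ∧
      ∀ A : Set X, ¬ UnderRecurrentSet μ T A := by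
  refine ⟨X85.UR.XX, inferInstance, inferInstance, X85.UR.mu, inferInstance, X85.UR.TT,
    X85.UR.mp_TT, X85.UR.mu_atom, X85.UR.aper, ⟨X85.UR.ff, X85.UR.ff_meas,
    fun x => ⟨X85.UR.ff_nonneg x, X85.UR.ff_le x⟩, ?_, X85.UR.ff_not_const, ?_⟩, ?_⟩
  · refine MemLp.of_bound X85.UR.ff_meas.aestronglyMeasurable 1 (Filter.Eventually.of_forall ?_)
    intro x
    rw [Real.norm_eq_abs, abs_of_nonneg (X85.UR.ff_nonneg x)]
    exact X85.UR.ff_le x
  · intro n hn
    rw [X85.UR.ff_corr n hn, X85.UR.ff_int]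
    norm_num
  · rintro A ⟨hA, h0, h1, h2⟩
    obtain ⟨n, hn, hlt⟩ := X85.UR.no_set A hA h0 h1
    exact absurd (h2 n hn) (not_le.2 hlt)

end Pool.Agent.Results.MP_73c876_an.FunctionWithoutSet
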